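import Mathlib
import Pool.Agent.Helper292.ForceCH
import Pool.Agent.H341Q.PNMain

/-!
# MP_2087e7_lc: `PN_σ = PM_σ ∩ UN` is not a theorem of ZFC, with no hypothesis

The starting result `MeagerNullNotPerfectlyNull` assumes the continuum hypothesis. Here no
hypothesis is assumed: some notion of forcing forces the continuum hypothesis and preserves `ω₁`
(first part, in the forcing language of `Pool.Agent.Helper292.ForceCH`), and the continuum
hypothesis implies that every nonempty perfect Polish space contains a set which is countably
perfectly meager and universally null but not countably perfectly null (second part).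
-/

open Set Filter Topology Pool.Agent.H341Q.PN

namespace Pool.Agent.Results.MP_2087e7_lc.ForcedCounterexample

universe u

/-- The Cantor space is Polish. -/
instance polishSpace_cantor : PolishSpace (ℕ → Bool) := { }

/-- The Cantor space has no isolated points. -/
instance perfectSpace_cantor : PerfectSpace (ℕ → Bool) := by
  constructor
  rw [preperfect_iff_nhds]
  intro x _ U hU
  obtain ⟨n, hn⟩ := exists_cyl hU
  refine ⟨Function.update x n (!(x n)), ⟨hn ?_, mem_univ _⟩, ?_⟩
  · intro i hi
    rw [Function.update_of_ne (by omega)]
  · intro h
    have := congrFun h n
    rw [Function.update_self] at this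
    cases hx : x n <;> simp [hx] at this

/-- No hypothesis is assumed. (1) There is a notion of forcing `P` all of whose conditions force
that `ω₁` is preserved and that the continuum hypothesis holds. (2) The continuum hypothesis
implies that every nonempty perfect Polish space contains a set which is countably perfectly
meager and universally null but not countably perfectly null; in particular the Cantor space
does. So `PN_σ = PM_σ ∩ UN` is not a theorem of ZFC. -/
theorem result :
    (∃ (P : Type) (_ : Preorder P), Nonempty P ∧ ∀ p : P,
      p ∈ Pool.Agent.Helper292.ForceCH.OmegaOnePreserved P ∧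
      p ∈ Pool.Agent.Helper292.ForceCH.CHHolds P) ∧
    (Cardinal.continuum.{0} = Cardinal.aleph 1 →
      (∀ (X : Type u) [TopologicalSpace X] [PolishSpace X] [PerfectSpace X] [Nonempty X]
        [MeasurableSpace X] [BorelSpace X],
        ∃ A : Set X, CountablyPerfectlyMeager A ∧ UniversallyNull A ∧
          ¬ CountablyPerfectlyNull A) ∧
      (∃ A : Set (ℕ → Bool), CountablyPerfectlyMeager A ∧ UniversallyNull A ∧
          ¬ CountablyPerfectlyNull A)) := by
  refine ⟨?_, fun CH => ⟨fun _ => exists_general CH, exists_general CH⟩⟩
  obtain ⟨P, hP, hne, h⟩ := Pool.Agent.Helper292.ForceCH.exists_forcing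
  exact ⟨P, hP, hne, fun p => ⟨(h p).1, (h p).2.2⟩⟩

end Pool.Agent.Results.MP_2087e7_lc.ForcedCounterexample
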